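import Pool.Agent.Helper45.SD.Goals

set_option autoImplicit false

/-!
# Packet 2183 (MP_9415b6_co Q2): `G_DEG` and `G_LOW`
-/

open Finset

namespace Pool.Agent.Helper51.SD

open Pool.Agent.Helper45.SD Pool.Agent.Helper51.SS

theorem mem_bl {n : ℕ} [NeZero n] {k : ℕ} {x : ZMod n} {T : Finset (ZMod n)} :
    T ∈ bl n k x ↔ ((0 : ZMod n) ∉ T ∧ T.card = k) ∧ ∑ t ∈ T, t = x := by
  unfold bl
  rw [Finset.mem_filter, Finset.mem_powersetCard]
  constructor
  · rintro ⟨⟨h1, h2⟩, h3⟩
    exact ⟨⟨fun h => (Finset.mem_erase.mp (h1 h)).1 rfl, h2⟩, h3⟩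
  · rintro ⟨⟨h1, h2⟩, h3⟩
    exact ⟨⟨fun a ha => Finset.mem_erase.mpr ⟨fun h => h1 (h ▸ ha), Finset.mem_univ _⟩, h2⟩, h3⟩

theorem deg_zero (n : ℕ) [NeZero n] (x y : ZMod n) : deg n 0 x y = 0 := by
  unfold deg
  rw [Finset.card_eq_zero, Finset.filter_eq_empty_iff]
  intro T hT hy
  have := (mem_bl.mp hT).1.2
  rw [Finset.card_eq_zero] at this
  subst this
  simp at hy

theorem deg_succ (n : ℕ) [NeZero n] (k : ℕ) (x y : ZMod n) (hy : y ≠ 0) :
    deg n (k + 1) x y + deg n k (x - y) y = (bl n k (x - y)).card := by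
  have h1 : deg n (k + 1) x y = ((bl n k (x - y)).filter (fun T => y ∉ T)).card := by
    unfold deg
    refine Finset.card_nbij' (fun T => T.erase y) (fun T => insert y T) ?_ ?_ ?_ ?_
    · intro T hT
      simp only [Finset.coe_filter, Set.mem_ofPred_eq, mem_bl] at hT ⊢
      obtain ⟨⟨⟨h0, hc⟩, hs⟩, hyT⟩ := hT
      refine ⟨⟨⟨fun h => h0 (Finset.mem_of_mem_erase h), ?_⟩, ?_⟩, Finset.notMem_erase _ _⟩
      · rw [Finset.card_erase_of_mem hyT, hc, Nat.add_sub_cancel]
      · rw [← hs, ← Finset.sum_erase_add T _ hyT, add_sub_cancel_right]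
    · intro T hT
      simp only [Finset.coe_filter, Set.mem_ofPred_eq, mem_bl] at hT ⊢
      obtain ⟨⟨⟨h0, hc⟩, hs⟩, hyT⟩ := hT
      refine ⟨⟨⟨?_, ?_⟩, ?_⟩, Finset.mem_insert_self _ _⟩
      · intro h
        rcases Finset.mem_insert.mp h with h | h
        · exact hy h.symm
        · exact h0 h
      · rw [Finset.card_insert_of_notMem hyT, hc]
      · rw [Finset.sum_insert hyT, hs]; ring
    · intro T hT
      simp only [Finset.coe_filter, Set.mem_ofPred_eq] at hT
      exact Finset.insert_erase hT.2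
    · intro T hT
      simp only [Finset.coe_filter, Set.mem_ofPred_eq] at hT
      exact Finset.erase_insert hT.2
  rw [h1]
  unfold deg
  rw [add_comm]
  exact Finset.card_filter_add_card_filter_not (s := bl n k (x - y)) (fun T => y ∈ T)

theorem deg_eq : G_DEG := by
  intro n _ k
  induction k with
  | zero => intro x y _; simp [deg_zero]
  | succ k ih =>
    intro x y hy
    have h1 := deg_succ n k x y hy
    have h2 := ih (x - y) y hy
    have h3 : (deg n (k + 1) x y : ℤ) = ((bl n k (x - y)).card : ℤ) - deg n k (x - y) y := by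
      rw [← h1]; push_cast; ring
    rw [h3, h2]
    have e1 : ∀ (m : ℕ) (f : ℕ → ℤ), ∑ j ∈ Finset.Icc 1 m, f j = ∑ i ∈ Finset.range m, f (1 + i) := by
      intro m f
      have : Finset.Icc 1 m = Finset.Ico 1 (m + 1) := by ext; simp
      rw [this, Finset.sum_Ico_eq_sum_range, Nat.add_sub_cancel]
    rw [e1, e1, Finset.sum_range_succ']
    have e2 : ∀ i ∈ Finset.range k,
        (-1 : ℤ) ^ (1 + (i + 1) - 1) * ((bl n (k + 1 - (1 + (i + 1)))
          (x - ((1 + (i + 1) : ℕ) : ZMod n) * y)).card : ℤ) =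
        - ((-1 : ℤ) ^ (1 + i - 1) * ((bl n (k - (1 + i))
          (x - y - ((1 + i : ℕ) : ZMod n) * y)).card : ℤ)) := by
      intro i _
      have a1 : 1 + (i + 1) - 1 = (1 + i - 1) + 1 := by omega
      have a2 : k + 1 - (1 + (i + 1)) = k - (1 + i) := by omega
      have a3 : x - ((1 + (i + 1) : ℕ) : ZMod n) * y = x - y - ((1 + i : ℕ) : ZMod n) * y := by
        push_cast; ring
      rw [a1, a2, a3, pow_succ]; ring
    rw [Finset.sum_congr rfl e2, Finset.sum_neg_distrib]
    simp only [add_zero, Nat.sub_self, pow_zero, one_mul, Nat.cast_one, Nat.add_sub_cancel]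
    ring

theorem card_shift (n : ℕ) [NeZero n] (t : ℕ) (z c : ZMod n) :
    (blocks n t z).card = (blocks n t (z + t * c)).card := by
  refine Finset.card_nbij' (fun T => T.image (fun s => s + c)) (fun T => T.image (fun s => s - c))
    ?_ ?_ ?_ ?_
  · intro T hT
    simp only [blocks, Finset.coe_filter, Finset.mem_powersetCard, Set.mem_ofPred_eq] at hT ⊢
    have hinj : Function.Injective (fun s : ZMod n => s + c) := fun a b h => by simpa using h
    refine ⟨⟨Finset.subset_univ _, ?_⟩, ?_⟩
    · rw [Finset.card_image_of_injective _ hinj, hT.1.2]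
    · rw [Finset.sum_image (fun a _ b _ h => hinj h), Finset.sum_add_distrib, hT.2,
        Finset.sum_const, hT.1.2, nsmul_eq_mul]
  · intro T hT
    simp only [blocks, Finset.coe_filter, Finset.mem_powersetCard, Set.mem_ofPred_eq] at hT ⊢
    have hinj : Function.Injective (fun s : ZMod n => s - c) := fun a b h => by simpa using h
    refine ⟨⟨Finset.subset_univ _, ?_⟩, ?_⟩
    · rw [Finset.card_image_of_injective _ hinj, hT.1.2]
    · rw [Finset.sum_image (fun a _ b _ h => hinj h), Finset.sum_sub_distrib, hT.2,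
        Finset.sum_const, hT.1.2, nsmul_eq_mul, add_sub_cancel_right]
  · intro T _
    simp only [Finset.image_image]
    conv_rhs => rw [← Finset.image_id (s := T)]
    refine Finset.image_congr fun t _ => ?_
    simp
  · intro T _
    simp only [Finset.image_image]
    conv_rhs => rw [← Finset.image_id (s := T)]
    refine Finset.image_congr fun t _ => ?_
    simp

theorem card_split (n : ℕ) [NeZero n] (t : ℕ) (z : ZMod n) :
    (blocks n (t + 1) z).card = (bl n (t + 1) z).card + (bl n t z).card := by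
  rw [← Finset.card_filter_add_card_filter_not (s := blocks n (t + 1) z)
    (fun T => (0 : ZMod n) ∉ T)]
  congr 1
  · congr 1
    ext T
    rw [mem_bl]
    simp only [blocks, Finset.mem_filter, Finset.mem_powersetCard, Finset.subset_univ, true_and]
    tauto
  · refine Finset.card_nbij' (fun T => T.erase 0) (fun T => insert 0 T) ?_ ?_ ?_ ?_
    · intro T hT
      simp only [blocks, Finset.coe_filter, Finset.mem_filter, Finset.mem_powersetCard,
        Set.mem_ofPred_eq, not_not] at hT
      obtain ⟨⟨⟨_, hc⟩, hs⟩, h0⟩ := hT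
      refine Finset.mem_coe.mpr (mem_bl.mpr ⟨⟨Finset.notMem_erase _ _, ?_⟩, ?_⟩)
      · rw [Finset.card_erase_of_mem h0, hc, Nat.add_sub_cancel]
      · rw [← hs, ← Finset.sum_erase_add T _ h0, add_zero]
    · intro T hT
      obtain ⟨⟨h0, hc⟩, hs⟩ := mem_bl.mp (Finset.mem_coe.mp hT)
      simp only [blocks, Finset.coe_filter, Finset.mem_filter, Finset.mem_powersetCard,
        Set.mem_ofPred_eq, not_not]
      refine ⟨⟨⟨Finset.subset_univ _, ?_⟩, ?_⟩, Finset.mem_insert_self _ _⟩
      · rw [Finset.card_insert_of_notMem h0, hc]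
      · rw [Finset.sum_insert h0, hs, zero_add]
    · intro T hT
      simp only [Finset.coe_filter, Set.mem_ofPred_eq, not_not] at hT
      exact Finset.insert_erase hT.2
    · intro T hT
      exact Finset.erase_insert (mem_bl.mp (Finset.mem_coe.mp hT)).1.1

theorem low_aux (n : ℕ) [NeZero n] (k : ℕ) (hq : ∀ q : ℕ, q.Prime → q ∣ n → k < q) :
    ∀ t ≤ k, ∃ c : ℤ, ∀ z : ZMod n,
      ((bl n t z).card : ℤ) = c + (-1) ^ t * (if z = 0 then 1 else 0) := by
  intro t
  induction t with
  | zero =>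
    intro _
    refine ⟨0, fun z => ?_⟩
    have : bl n 0 z = if z = 0 then {∅} else ∅ := by
      ext T
      rw [mem_bl]
      split_ifs with h
      · subst h
        simp only [Finset.card_eq_zero, Finset.mem_singleton]
        constructor
        · rintro ⟨⟨_, h⟩, _⟩; exact h
        · rintro rfl; simp
      · simp only [Finset.card_eq_zero, Finset.notMem_empty, iff_false]
        rintro ⟨⟨_, rfl⟩, hs⟩
        exact h (by simpa using hs.symm)
    rw [this]
    split_ifs <;> simp
  | succ t ih =>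
    intro ht
    obtain ⟨c, hc⟩ := ih (by omega)
    refine ⟨((blocks n (t + 1) 0).card : ℤ) - c, fun z => ?_⟩
    have hcop : Nat.Coprime (t + 1) n := by
      rw [Nat.coprime_iff_gcd_eq_one]
      by_contra h
      obtain ⟨q, hq1, hq2⟩ := Nat.exists_prime_and_dvd h
      have h1 := hq q hq1 (hq2.trans (Nat.gcd_dvd_right _ _))
      have h2 := Nat.le_of_dvd (by omega) (hq2.trans (Nat.gcd_dvd_left (t + 1) n))
      omega
    have h1 : (blocks n (t + 1) z).card = (blocks n (t + 1) 0).card := by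
      rw [card_shift n (t + 1) z (-(((ZMod.unitOfCoprime (t + 1) hcop)⁻¹ : (ZMod n)ˣ) : ZMod n) * z)]
      congr 2
      have h3 : ((t + 1 : ℕ) : ZMod n) *
          (((ZMod.unitOfCoprime (t + 1) hcop)⁻¹ : (ZMod n)ˣ) : ZMod n) = 1 := by
        have := (ZMod.unitOfCoprime (t + 1) hcop).mul_inv
        rwa [ZMod.coe_unitOfCoprime] at this
      linear_combination (-z) * h3
    have h2 := card_split n t z
    have h4 := hc z
    rw [h1] at h2
    have h5 : ((bl n (t + 1) z).card : ℤ) =
        ((blocks n (t + 1) 0).card : ℤ) - ((bl n t z).card : ℤ) := by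
      rw [h2]; push_cast; ring
    rw [h5, h4, pow_succ]
    ring

theorem low : G_LOW := by
  intro n _ k x hk _ hq
  have h := low_aux n k hq
  choose! c hc using h
  refine ⟨∑ j ∈ Finset.Icc 1 k, (-1) ^ (j - 1) * c (k - j), fun y hy => ?_⟩
  rw [deg_eq n k x y hy, Finset.card_filter]
  push_cast
  rw [Finset.mul_sum, ← Finset.sum_add_distrib]
  refine Finset.sum_congr rfl fun j hj => ?_
  rw [Finset.mem_Icc] at hj
  rw [hc (k - j) (Nat.sub_le _ _)]
  have e : (-1 : ℤ) ^ (k - 1) = (-1) ^ (j - 1) * (-1) ^ (k - j) := by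
    rw [← pow_add]; congr 1; omega
  rw [e]
  by_cases h0 : ((j : ℕ) : ZMod n) * y = x
  · rw [if_pos h0, if_pos (by rw [h0, sub_self])]; ring
  · rw [if_neg h0, if_neg (fun h => h0 (sub_eq_zero.mp h).symm)]; ring

end Pool.Agent.Helper51.SD
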