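import Pool.Agent.Helper45.SD.Goals

set_option autoImplicit false

/-!
# Packet 2192 (MP_9415b6_co Q2): `G_R3` and `G_R4` from `G_RGM`
-/

open Finset

namespace Pool.Agent.Helper51.SD

open Pool.Agent.Helper45.SD

/-- all exponents of `s` are at most one more than those of `g` -/
def Ok (g s : ℕ) : Prop := ∀ l : ℕ, l.Prime → s.factorization l ≤ g.factorization l + 1

theorem ok_of_dvd {g s t : ℕ} (ht : t ≠ 0) (h : s ∣ t) (hok : Ok g t) : Ok g s := fun l hl =>
  ((Nat.factorization_le_iff_dvd (ne_zero_of_dvd_ne_zero ht h) ht).mpr h l).trans (hok l hl)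

theorem rg_pow_ne (hR : G_RGM) {g : ℕ} (hg : 0 < g) {l i : ℕ} (hl : l.Prime) (hi : 1 ≤ i) :
    rg g (l ^ i) ≠ 0 ↔ i ≤ g.factorization l + 1 := by
  rw [hR.2.2 g l i hl hi]
  have hd : ∀ j : ℕ, l ^ j ∣ g ↔ j ≤ g.factorization l := fun j =>
    hl.pow_dvd_iff_le_factorization hg.ne'
  have hl1 : (1 : ℤ) < l := by exact_mod_cast hl.one_lt
  have hl0 : (0 : ℤ) < l := by linarith
  by_cases h1 : l ^ i ∣ g
  · have h2 : l ^ (i - 1) ∣ g := (pow_dvd_pow l (Nat.sub_le i 1)).trans h1
    rw [if_pos h1, if_pos h2]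
    constructor
    · intro _; have := (hd i).mp h1; omega
    · intro _
      obtain ⟨j, rfl⟩ : ∃ j, i = j + 1 := ⟨i - 1, by omega⟩
      rw [Nat.add_sub_cancel]
      push_cast
      have : (0 : ℤ) < (l : ℤ) ^ j := pow_pos hl0 j
      rw [pow_succ]
      nlinarith
  · rw [if_neg h1]
    by_cases h2 : l ^ (i - 1) ∣ g
    · rw [if_pos h2]
      constructor
      · intro _; have := (hd (i - 1)).mp h2; omega
      · intro _
        have : (0 : ℤ) < ((l ^ (i - 1) : ℕ) : ℤ) := by exact_mod_cast pow_pos hl.pos _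
        omega
    · rw [if_neg h2]
      constructor
      · intro h; exact absurd rfl h
      · intro h; exact absurd ((hd (i - 1)).mpr (by omega)) h2

theorem rg_ne_iff (hR : G_RGM) {g : ℕ} (hg : 0 < g) (s : ℕ) : 0 < s → (rg g s ≠ 0 ↔ Ok g s) := by
  induction s using Nat.recOnPosPrimePosCoprime with
  | prime_pow l i hl hi =>
    intro _
    rw [rg_pow_ne hR hg hl hi]
    unfold Ok
    constructor
    · intro h q hq
      rw [hl.factorization_pow, Finsupp.single_apply]
      split_ifs with h1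
      · subst h1; exact h
      · omega
    · intro h
      have := h l hl
      rwa [hl.factorization_pow, Finsupp.single_eq_same] at this
  | zero => intro h; exact absurd h (lt_irrefl _)
  | one =>
    intro _
    rw [hR.2.1 g]
    simp [Ok]
  | coprime a b ha hb hab iha ihb =>
    intro _
    rw [hR.1 g a b hg hab, mul_ne_zero_iff, iha (by omega), ihb (by omega)]
    unfold Ok
    constructor
    · rintro ⟨h1, h2⟩ l hl
      rw [Nat.factorization_mul (by omega) (by omega), Finsupp.add_apply]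
      by_cases hla : l ∣ a
      · have hlb : ¬ l ∣ b := fun h => hl.one_lt.ne' (Nat.dvd_one.mp
          (hab.gcd_eq_one ▸ Nat.dvd_gcd hla h))
        rw [Nat.factorization_eq_zero_of_not_dvd hlb]
        exact h1 l hl
      · rw [Nat.factorization_eq_zero_of_not_dvd hla, zero_add]
        exact h2 l hl
    · intro h
      constructor <;> intro l hl <;> have := h l hl <;>
        rw [Nat.factorization_mul (by omega) (by omega), Finsupp.add_apply] at this <;> omega

theorem ok_lcm {g a b : ℕ} (ha0 : a ≠ 0) (hb0 : b ≠ 0) (ha : Ok g a) (hb : Ok g b) :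
    Ok g (Nat.lcm a b) := by
  intro l hl
  rw [Nat.factorization_lcm ha0 hb0, Finsupp.sup_apply]
  exact sup_le (ha l hl) (hb l hl)

theorem r3 (hR : G_RGM) : G_R3 := by
  intro n g hn hgn
  have hg : 0 < g := Nat.pos_of_dvd_of_pos hgn hn
  set S : Finset ℕ := n.divisors.filter (fun s => rg g s ≠ 0) with hS
  have hmem : ∀ s, s ∈ S ↔ s ∣ n ∧ Ok g s := by
    intro s
    rw [hS, Finset.mem_filter, Nat.mem_divisors]
    constructor
    · rintro ⟨⟨h1, _⟩, h2⟩
      exact ⟨h1, (rg_ne_iff hR hg s (Nat.pos_of_dvd_of_pos h1 hn)).mp h2⟩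
    · rintro ⟨h1, h2⟩
      exact ⟨⟨h1, hn.ne'⟩, (rg_ne_iff hR hg s (Nat.pos_of_dvd_of_pos h1 hn)).mpr h2⟩
  have hlcm : ∀ U : Finset ℕ, U ⊆ S → U.lcm id ≠ 0 ∧ Ok g (U.lcm id) := by
    intro U
    induction U using Finset.induction_on with
    | empty => intro _; simp [Ok]
    | insert a U ha ih =>
      intro hU
      obtain ⟨h1, h2⟩ := ih (fun x hx => hU (Finset.mem_insert_of_mem hx))
      have h3 := (hmem a).mp (hU (Finset.mem_insert_self _ _))
      have h4 : a ≠ 0 := (Nat.pos_of_dvd_of_pos h3.1 hn).ne'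
      rw [Finset.lcm_insert]
      exact ⟨Nat.lcm_ne_zero h4 h1, ok_lcm h4 h1 h3.2 h2⟩
  obtain ⟨h0, hok⟩ := hlcm S subset_rfl
  have hdn : S.lcm id ∣ n := Finset.lcm_dvd fun s hs => ((hmem s).mp hs).1
  refine ⟨S.lcm id, hdn, ?_, ?_, ?_, ?_⟩
  · intro q hq hqn
    refine Finset.dvd_lcm (f := id) ((hmem q).mpr ⟨hqn, ?_⟩)
    intro l hl
    rw [hq.factorization, Finsupp.single_apply]
    split_ifs <;> omega
  · exact (rg_ne_iff hR hg _ (Nat.pos_of_ne_zero h0)).mpr hok
  · intro s hs hs0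
    exact Finset.dvd_lcm (f := id) ((hmem s).mpr ⟨hs,
      (rg_ne_iff hR hg s (Nat.pos_of_dvd_of_pos hs hn)).mp hs0⟩)
  · intro l hl hls
    have hd : S.lcm id / l ∣ S.lcm id := Nat.div_dvd_of_dvd hls
    refine (rg_ne_iff hR hg _ (Nat.pos_of_ne_zero (ne_zero_of_dvd_ne_zero h0 hd))).mpr ?_
    exact ok_of_dvd h0 hd hok

theorem r4 (hR : G_RGM) : G_R4 := by
  intro p M g hp hM hgM hne
  have hpM : 0 < p * M := Nat.mul_pos hp.pos hM
  have hg : 0 < g := Nat.pos_of_dvd_of_pos hgM hpM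
  have hokM : Ok g M := ok_of_dvd hpM.ne' (Dvd.intro_left p rfl) ((rg_ne_iff hR hg _ hpM).mp hne)
  refine ⟨(rg_ne_iff hR hg M hM).mpr hokM, ?_, ?_⟩
  · intro hnd
    have hcop : Nat.Coprime p M := (Nat.Prime.coprime_iff_not_dvd hp).mpr hnd
    have h1 := hR.2.2 g p 1 hp le_rfl
    rw [pow_one, Nat.sub_self, pow_zero, if_pos (one_dvd g)] at h1
    rw [hR.1 g p M hg hcop, h1]
    split_ifs
    · left; push_cast; ring
    · right; push_cast; ring
  · intro hpd
    obtain ⟨a, m, hm, hMe⟩ := Nat.exists_eq_pow_mul_and_not_dvd hM.ne' p hp.ne_one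
    have ha : 1 ≤ a := by
      by_contra h
      have : a = 0 := by omega
      subst this
      rw [pow_zero, one_mul] at hMe
      exact hm (hMe ▸ hpd)
    have hcm : Nat.Coprime p m := (Nat.Prime.coprime_iff_not_dvd hp).mpr hm
    have e1 : p * M = p ^ (a + 1) * m := by rw [hMe, pow_succ]; ring
    have r1 : rg g (p * M) = rg g (p ^ (a + 1)) * rg g m := by
      rw [e1, hR.1 g _ m hg (Nat.Coprime.pow_left _ hcm)]
    have r2 : rg g M = rg g (p ^ a) * rg g m := by
      rw [hMe, hR.1 g _ m hg (Nat.Coprime.pow_left _ hcm)]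
    have f1 := hR.2.2 g p (a + 1) hp (by omega)
    have f2 := hR.2.2 g p a hp ha
    rw [Nat.add_sub_cancel] at f1
    have hne1 : rg g (p ^ (a + 1)) ≠ 0 := by
      intro h; rw [r1, h, zero_mul] at hne; exact hne rfl
    have hpa : p ^ a ∣ g := by
      by_contra h
      have h' : ¬ p ^ (a + 1) ∣ g := fun h2 => h ((pow_dvd_pow p (Nat.le_succ a)).trans h2)
      rw [if_neg h, if_neg h'] at f1
      exact hne1 (by rw [f1]; ring)
    have hpa' : p ^ (a - 1) ∣ g := (pow_dvd_pow p (Nat.sub_le a 1)).trans hpa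
    rw [if_pos hpa, if_pos hpa'] at f2
    rw [if_pos hpa] at f1
    obtain ⟨b, rfl⟩ : ∃ b, a = b + 1 := ⟨a - 1, by omega⟩
    rw [Nat.add_sub_cancel] at f2
    rw [r1, r2, f1, f2]
    split_ifs
    · left; push_cast; ring
    · right; push_cast; ring

end Pool.Agent.Helper51.SD
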