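import Pool.Agent.Helper45.SD.Goals

set_option autoImplicit false

/-!
# Packet 2199 (MP_9415b6_co Q2): `G_TH`
-/

open Finset

namespace Pool.Agent.Helper51.SD

open Pool.Agent.Helper45.SD

theorem th_rg27 (g : ℕ) : rg g 27 = (if 27 ∣ g then 27 else 0) - (if 9 ∣ g then 9 else 0) := by
  have h : (27 : ℕ).divisors = {1, 3, 9, 27} := by decide
  have m1 : ArithmeticFunction.moebius 27 = 0 :=
    ArithmeticFunction.moebius_eq_zero_of_not_squarefree (by
      intro h; have := h 3 (by decide); simp at this)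
  have m2 : ArithmeticFunction.moebius 9 = 0 :=
    ArithmeticFunction.moebius_eq_zero_of_not_squarefree (by
      intro h; have := h 3 (by decide); simp at this)
  have m3 : ArithmeticFunction.moebius 3 = -1 :=
    ArithmeticFunction.moebius_apply_prime Nat.prime_three
  unfold rg
  rw [h]
  simp only [Finset.sum_insert (by decide : (1 : ℕ) ∉ ({3, 9, 27} : Finset ℕ)),
    Finset.sum_insert (by decide : (3 : ℕ) ∉ ({9, 27} : Finset ℕ)),
    Finset.sum_insert (by decide : (9 : ℕ) ∉ ({27} : Finset ℕ)), Finset.sum_singleton]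
  norm_num [m1, m2, m3]
  split_ifs <;> simp

theorem th_rg9 (g : ℕ) : rg g 9 = (if 9 ∣ g then 9 else 0) - (if 3 ∣ g then 3 else 0) := by
  have h : (9 : ℕ).divisors = {1, 3, 9} := by decide
  have m2 : ArithmeticFunction.moebius 9 = 0 :=
    ArithmeticFunction.moebius_eq_zero_of_not_squarefree (by
      intro h; have := h 3 (by decide); simp at this)
  have m3 : ArithmeticFunction.moebius 3 = -1 :=
    ArithmeticFunction.moebius_apply_prime Nat.prime_three
  unfold rg
  rw [h]
  simp only [Finset.sum_insert (by decide : (1 : ℕ) ∉ ({3, 9} : Finset ℕ)),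
    Finset.sum_insert (by decide : (3 : ℕ) ∉ ({9} : Finset ℕ)), Finset.sum_singleton]
  norm_num [m2, m3]
  split_ifs <;> simp

theorem th_rg3 (g : ℕ) : rg g 3 = (if 3 ∣ g then 3 else 0) - 1 := by
  have h : (3 : ℕ).divisors = {1, 3} := by decide
  have m3 : ArithmeticFunction.moebius 3 = -1 :=
    ArithmeticFunction.moebius_apply_prime Nat.prime_three
  unfold rg
  rw [h]
  simp only [Finset.sum_insert (by decide : (1 : ℕ) ∉ ({3} : Finset ℕ)), Finset.sum_singleton]
  norm_num [m3]
  split_ifs <;> simp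

theorem th_27 (k g : ℕ) (hk : 9 ≤ k) (hk' : k ≤ 13) (hg : g ∣ 27) (hne : rg g 27 ≠ 0)
    (hAV : AV 27 k g) : D 3 9 k = 0 := by
  have hgl : g = 1 ∨ g = 3 ∨ g = 9 ∨ g = 27 := by
    have h : g ∈ (27 : ℕ).divisors := Nat.mem_divisors.mpr ⟨hg, by norm_num⟩
    have h' : (27 : ℕ).divisors = {1, 3, 9, 27} := by decide
    rw [h'] at h
    simpa using h
  have h3 := hAV 3 (by norm_num) (by norm_num)
  have hd : (27 : ℕ).divisors = {1, 3, 9, 27} := by decide
  rw [hd] at h3
  simp only [Finset.sum_insert (by decide : (1 : ℕ) ∉ ({3, 9, 27} : Finset ℕ)),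
    Finset.sum_insert (by decide : (3 : ℕ) ∉ ({9, 27} : Finset ℕ)),
    Finset.sum_insert (by decide : (9 : ℕ) ∉ ({27} : Finset ℕ)), Finset.sum_singleton] at h3
  have t27 : Nat.totient 27 = 18 := by decide
  have t3 : Nat.totient 3 = 2 := by decide
  rw [th_rg27, th_rg9, th_rg3, t27, t3] at h3
  have b1 : Bs 27 k 1 3 = 0 := by
    unfold Bs
    refine Finset.sum_eq_zero fun j _ => ?_
    rw [if_neg]
    rw [Nat.gcd_one_left]
    norm_num
  rw [b1] at h3
  rcases hgl with rfl | rfl | rfl | rfl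
  · rw [th_rg27] at hne; norm_num at hne
  · rw [th_rg27] at hne; norm_num at hne
  · interval_cases k
    · have a1 : Bs 27 9 3 3 = 42 := by decide
      have a2 : Bs 27 9 9 3 = 2 := by decide
      have a3 : Bs 27 9 27 3 = 1 := by decide
      have a4 : Ph 27 9 = 6 := by decide
      rw [a1, a2, a3, a4] at h3; norm_num at h3
    · have a1 : Bs 27 10 3 3 = -14 := by decide
      have a2 : Bs 27 10 9 3 = 2 := by decide
      have a3 : Bs 27 10 27 3 = 1 := by decide
      have a4 : Ph 27 10 = 7 := by decide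
      rw [a1, a2, a3, a4] at h3; norm_num at h3
    · have a1 : Bs 27 11 3 3 = -70 := by decide
      have a2 : Bs 27 11 9 3 = 2 := by decide
      have a3 : Bs 27 11 27 3 = 1 := by decide
      have a4 : Ph 27 11 = 8 := by decide
      rw [a1, a2, a3, a4] at h3; norm_num at h3
    · have a1 : Bs 27 12 3 3 = -70 := by decide
      have a2 : Bs 27 12 9 3 = 0 := by decide
      have a3 : Bs 27 12 27 3 = 1 := by decide
      have a4 : Ph 27 12 = 8 := by decide
      rw [a1, a2, a3, a4] at h3; norm_num at h3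
    · decide
  · interval_cases k
    · have a1 : Bs 27 9 3 3 = 42 := by decide
      have a2 : Bs 27 9 9 3 = 2 := by decide
      have a3 : Bs 27 9 27 3 = 1 := by decide
      have a4 : Ph 27 9 = 6 := by decide
      rw [a1, a2, a3, a4] at h3; norm_num at h3
    · have a1 : Bs 27 10 3 3 = -14 := by decide
      have a2 : Bs 27 10 9 3 = 2 := by decide
      have a3 : Bs 27 10 27 3 = 1 := by decide
      have a4 : Ph 27 10 = 7 := by decide
      rw [a1, a2, a3, a4] at h3; norm_num at h3
    · have a1 : Bs 27 11 3 3 = -70 := by decide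
      have a2 : Bs 27 11 9 3 = 2 := by decide
      have a3 : Bs 27 11 27 3 = 1 := by decide
      have a4 : Ph 27 11 = 8 := by decide
      rw [a1, a2, a3, a4] at h3; norm_num at h3
    · have a1 : Bs 27 12 3 3 = -70 := by decide
      have a2 : Bs 27 12 9 3 = 0 := by decide
      have a3 : Bs 27 12 27 3 = 1 := by decide
      have a4 : Ph 27 12 = 8 := by decide
      rw [a1, a2, a3, a4] at h3; norm_num at h3
    · decide

theorem th_Bs3 (m k : ℕ) (hm : 1 ≤ m) : Bs (3 ^ m) k 3 3 = D 3 (3 ^ (m - 1)) k := by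
  unfold Bs D
  rw [Finset.sum_filter]
  refine Finset.sum_congr rfl fun j _ => ?_
  have h1 : 3 ^ m / 3 = 3 ^ (m - 1) := by
    obtain ⟨m, rfl⟩ : ∃ a, m = a + 1 := ⟨m - 1, by omega⟩
    rw [Nat.add_sub_cancel, pow_succ, Nat.mul_div_cancel _ (by norm_num)]
  rw [h1]
  by_cases h : 3 ∣ j
  · rw [Nat.gcd_eq_left h]
    simp [h]
  · have : Nat.gcd 3 j = 1 := (Nat.Prime.coprime_iff_not_dvd Nat.prime_three).mpr h
    rw [this]
    simp [h]

theorem th (hEP : G_EP) (hA0 : G_A0) (hR3 : G_R3) (hBLK : G_BLK) : G_TH := by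
  intro m k g hm hk hk' hkn hg hAV
  have hn2 : 27 ≤ 3 ^ m := by
    calc 27 = 3 ^ 3 := by norm_num
      _ ≤ 3 ^ m := Nat.pow_le_pow_right (by norm_num) hm
  by_cases hne : rg g (3 ^ m) = 0
  · obtain ⟨s0, hs0, hq, hrs, hmax, -⟩ := hR3 (3 ^ m) g (by positivity) hg
    have h3 : 3 ∣ s0 := hq 3 Nat.prime_three (dvd_pow_self 3 (by omega))
    have hs0pos : 0 < s0 := Nat.pos_of_dvd_of_pos hs0 (by positivity)
    have hs01 : 1 < s0 := lt_of_lt_of_le (by norm_num) (Nat.le_of_dvd hs0pos h3)
    obtain ⟨hB, hle⟩ := hA0 (3 ^ m) k g s0 (by omega) (by omega) hg hs0 hs01 hrs hmax hne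
      (by omega) hAV
    obtain ⟨i, hi, rfl⟩ := (Nat.dvd_prime_pow Nat.prime_three).mp hs0
    have hi1 : 1 ≤ i := by
      by_contra h
      have : i = 0 := by omega
      subst this
      norm_num at hs01
    have hi2 : i ≤ 2 := by
      by_contra h
      have : 3 ^ 3 ≤ 3 ^ i := Nat.pow_le_pow_right (by norm_num) (by omega)
      omega
    have hi' : i = 1 ∨ i = 2 := by omega
    rcases hi' with rfl | rfl
    · rw [pow_one, th_Bs3 m k (by omega)] at hB
      exact hB
    · have hB' : Bs (3 ^ m) k 9 9 = 0 := hB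
      have hb := (hBLK (3 ^ m) k 9 9 (by
        exact (pow_dvd_pow 3 (by omega : 2 ≤ m))) (by positivity) dvd_rfl (by omega)).1 (by omega)
      rw [hB', mul_zero] at hb
      have hk9 : k / 9 = 1 := by omega
      have hn9 : 3 ^ m / 9 = 3 ^ (m - 2) := by
        obtain ⟨m, rfl⟩ : ∃ a, m = a + 2 := ⟨m - 2, by omega⟩
        rw [Nat.add_sub_cancel, pow_add]
        norm_num
      have ht : Nat.totient 9 = 6 := by decide
      rw [hk9, hn9, ht] at hb
      have hN : 3 ≤ 3 ^ (m - 2) := by
        calc 3 = 3 ^ 1 := by norm_num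
          _ ≤ _ := Nat.pow_le_pow_right (by norm_num) (by omega)
      have hep : ep (3 ^ (m - 2)) 1 ≠ 0 := by
        unfold ep
        rw [Nat.choose_one_right, pow_one]
        have : (0 : ℤ) < ((3 ^ (m - 2) - 1 : ℕ) : ℤ) := by
          have : 0 < 3 ^ (m - 2) - 1 := by omega
          exact_mod_cast this
        intro h
        linarith
      have hb2 := (mul_eq_zero.mp hb.symm).resolve_left hep
      have hX : k % 9 = k - 9 := by omega
      rw [hX] at hb2
      have hNu : Nu 9 9 (k - 9) ≤ 4 ∧ (k ≤ 12 → Nu 9 9 (k - 9) ≤ 2) := by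
        interval_cases k <;> decide
      by_cases hm3 : m = 3
      · subst hm3
        have hk13 : k = 13 := by
          by_contra h
          have hk12 : k ≤ 12 := by omega
          have := hNu.2 hk12
          norm_num at hb2
          omega
        subst hk13
        decide
      · exfalso
        have hN9 : 9 ≤ 3 ^ (m - 2) := by
          calc 9 = 3 ^ 2 := by norm_num
            _ ≤ _ := Nat.pow_le_pow_right (by norm_num) (by omega)
        have hN9' : (9 : ℤ) ≤ ((3 ^ (m - 2) : ℕ) : ℤ) := by exact_mod_cast hN9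
        set N : ℤ := ((3 ^ (m - 2) : ℕ) : ℤ) with hNdef
        have h6 : (N - 1) * (Nu 9 9 (k - 9) : ℤ) = 6 := by
          have := hb2
          norm_num at this
          linarith
        rcases Nat.eq_zero_or_pos (Nu 9 9 (k - 9)) with h0 | h0
        · rw [h0] at h6; norm_num at h6
        · have : (1 : ℤ) ≤ (Nu 9 9 (k - 9) : ℤ) := by exact_mod_cast h0
          nlinarith
  · by_cases hm3 : m = 3
    · subst hm3
      exact th_27 k g hk (by norm_num at hkn; omega) hg hne hAV
    · exfalso
      have hM : 27 ≤ 3 ^ (m - 1) := by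
        calc 27 = 3 ^ 3 := by norm_num
          _ ≤ _ := Nat.pow_le_pow_right (by norm_num) (by omega)
      have hmm : 3 * 3 ^ (m - 1) = 3 ^ m := by
        obtain ⟨m, rfl⟩ : ∃ a, m = a + 1 := ⟨m - 1, by omega⟩
        rw [Nat.add_sub_cancel, pow_succ]; ring
      refine hEP 3 (3 ^ (m - 1)) k g Nat.prime_three le_rfl (by omega)
        (Odd.pow (by decide)) ?_ (by omega) (by omega) (by rw [hmm]; exact hg)
        (by rw [hmm]; exact hne) (by rw [hmm]; exact hAV)
      intro q hq hqd
      have := (Nat.prime_dvd_prime_iff_eq hq Nat.prime_three).mp (hq.dvd_of_dvd_pow hqd)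
      omega

end Pool.Agent.Helper51.SD
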